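import Pool.Agent.Q116.Cyc.Reg

set_option autoImplicit false

/-! An infinite family of even cycles for which spanning subgraphs without a member of the family
of a suitable regular graph have a vertex of degree at most one. -/

namespace Q116.Cyc

open SimpleGraph

theorem exists_leaf {V : Type} [Finite V] (F : SimpleGraph V) (hF : F.IsAcyclic) (v : V) :
    ∃ x : V, (F.neighborSet x).ncard ≤ 1 := by
  classical
  have := Fintype.ofFinite V
  let s : Set ℕ := {n | ∃ (x : V) (p : F.Walk v x), p.IsPath ∧ p.length = n}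
  have hs : s.Finite := by
    refine Set.Finite.subset (Set.finite_le_nat (Fintype.card V)) ?_
    rintro n ⟨x, p, hp, hn⟩
    have := hp.length_lt
    simp only [Set.mem_ofPred_eq]
    omega
  obtain ⟨m, ⟨⟨x, p, hp, hpm⟩, hmax⟩⟩ := hs.exists_maximal ⟨0, ⟨v, SimpleGraph.Walk.nil, by simp⟩⟩
  refine ⟨x, ?_⟩
  have key : ∀ w, F.Adj x w → w = p.penultimate := by
    intro w hw
    apply hF.eq_penultimate_of_adj_end hp hw
    by_contra hns
    have hq : (p.concat hw).IsPath := hp.concat hns hw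
    have h1 := hmax (y := (p.concat hw).length) ⟨w, p.concat hw, hq, rfl⟩
    have h2 : (p.concat hw).length = p.length + 1 := by simp
    have h3 := h1 (by omega)
    omega
  have hsub : F.neighborSet x ⊆ {p.penultimate} := fun w hw => key w hw
  exact (Set.ncard_le_ncard hsub (Set.finite_singleton _)).trans (by simp)

/-- A finite bipartite `d`-regular graph with all cycles longer than `g`. -/
structure RG (d g : ℕ) where
  n : ℕ
  G : SimpleGraph (Fin n)
  pos : 0 < n
  col : G.Colorable 2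
  reg : ∀ v, (G.neighborSet v).ncard = d
  cyc : ∀ (v : Fin n) (w : G.Walk v v), w.IsCycle → g < w.length

theorem nonempty_RG (d g : ℕ) : Nonempty (RG d g) := by
  obtain ⟨n, G, h1, h2, h3, h4⟩ := exists_regular d g
  exact ⟨⟨n, G, h1, h2, h3, h4⟩⟩

noncomputable def rg (d g : ℕ) : RG d g := (nonempty_RG d g).some

/-- The thresholds: `thr 0 = 4`, and `thr (i+1)` is the number of vertices of the `i`-th host plus
everything before. -/
noncomputable def thr : ℕ → ℕ
  | 0 => 4
  | i + 1 => thr i + (rg (i + 1) (thr i)).n +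
      (rg (rg (i + 1) (thr i)).n (thr i + (rg (i + 1) (thr i)).n)).n

/-- The `i`-th sparse graph: `i+1`-regular, all cycles longer than `thr i`. -/
noncomputable def X (i : ℕ) : RG (i + 1) (thr i) := rg (i + 1) (thr i)

/-- The `i`-th host: regular of degree `(X i).n`, all cycles longer than `thr i + (X i).n`. -/
noncomputable def Y (i : ℕ) : RG (X i).n (thr i + (X i).n) := rg (X i).n (thr i + (X i).n)

theorem thr_succ (i : ℕ) : thr (i + 1) = thr i + (X i).n + (Y i).n := rfl

theorem thr_mono : Monotone thr := by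
  apply monotone_nat_of_le_succ
  intro i
  rw [thr_succ]
  omega

/-- The set of forbidden cycle lengths. -/
def K : Set ℕ := {ℓ | Even ℓ ∧ 4 ≤ ℓ ∧ ∀ i, ¬ (thr i < ℓ ∧ ℓ ≤ (X i).n)}

theorem four_mem_K : 4 ∈ K := by
  refine ⟨by decide, le_rfl, ?_⟩
  rintro i ⟨h1, -⟩
  have : thr 0 ≤ thr i := thr_mono (Nat.zero_le i)
  have h0 : thr 0 = 4 := rfl
  omega

theorem X_free (i : ℕ) : ∀ ℓ ∈ K, ¬ (cycleGraph ℓ).IsContained (X i).G := by
  rintro ℓ ⟨h1, h2, h3⟩ hc
  rw [cycleGraph_isContained_iff (by omega)] at hc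
  obtain ⟨v, p, hp, hl⟩ := hc
  apply h3 i
  refine ⟨?_, ?_⟩
  · rw [← hl]
    exact (X i).cyc v p hp
  · have h4 := hp.support_nodup
    have h5 : p.support.tail.length = p.length := by simp
    have h6 := h4.length_le_card
    rw [h5, Fintype.card_fin] at h6
    omega

theorem even_of_colorable {V : Type} (G : SimpleGraph V) (h : G.Colorable 2) {v : V}
    (w : G.Walk v v) : Even w.length := by
  obtain ⟨c⟩ := h
  let c' : G.Coloring Bool := (Embedding.completeGraph finTwoEquiv.toEmbedding).toHom.comp c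
  exact (c'.even_length_iff_congr w).mpr Iff.rfl

theorem Y_acyclic (i : ℕ) (H : SimpleGraph (Fin (Y i).n)) (hH : H ≤ (Y i).G)
    (hf : ∀ ℓ ∈ K, ¬ (cycleGraph ℓ).IsContained H) : H.IsAcyclic := by
  intro v p hp
  have hp' : (p.mapLe hH).IsCycle := hp.mapLe hH
  have hlen : (p.mapLe hH).length = p.length := by simp
  have h1 := (Y i).cyc v _ hp'
  have h2 : Even p.length := by
    rw [← hlen]
    exact even_of_colorable _ (Y i).col _
  have h3 : p.length ≤ (Y i).n := by
    have h4 := hp.support_nodup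
    have h5 : p.support.tail.length = p.length := by simp
    have h6 := h4.length_le_card
    rw [h5, Fintype.card_fin] at h6
    omega
  rw [hlen] at h1
  apply hf p.length
  · refine ⟨h2, ?_, ?_⟩
    · have : thr 0 ≤ thr i := thr_mono (Nat.zero_le i)
      have h0 : thr 0 = 4 := rfl
      omega
    · rintro j ⟨hj1, hj2⟩
      rcases lt_trichotomy j i with h | h | h
      · have h7 : thr (j + 1) ≤ thr i := thr_mono h
        rw [thr_succ] at h7
        omega
      · subst h
        omega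
      · have h7 : thr (i + 1) ≤ thr j := thr_mono h
        rw [thr_succ] at h7
        omega
  · rw [cycleGraph_isContained_iff (by have := hp.three_le_length; omega)]
    exact ⟨v, p, hp, rfl⟩

theorem card_edges (i : ℕ) : 2 * (X i).G.edgeSet.ncard = (X i).n * (i + 1) := by
  classical
  have h := (X i).G.sum_degrees_eq_twice_card_edges
  have h1 : ∀ v, (X i).G.degree v = i + 1 := by
    intro v
    have h0 := (X i).reg v
    rw [← SimpleGraph.card_neighborFinset_eq_degree, ← Set.ncard_coe_finset]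
    simpa using h0
  have h2 : (X i).G.edgeSet.ncard = (X i).G.edgeFinset.card := by
    rw [← SimpleGraph.coe_edgeFinset, Set.ncard_coe_finset]
  rw [h2, ← h]
  simp [h1]

theorem X_large (i : ℕ) : i + 1 ≤ (X i).n := by
  have h0 := (X i).reg ⟨0, (X i).pos⟩
  have h1 : ((X i).G.neighborSet ⟨0, (X i).pos⟩).ncard ≤ (Set.univ : Set (Fin (X i).n)).ncard :=
    Set.ncard_le_ncard (Set.subset_univ _) Set.finite_univ
  rw [Set.ncard_univ, Nat.card_eq_fintype_card, Fintype.card_fin] at h1
  omega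

/-- The main construction. -/
theorem main : ∃ K : Set ℕ, 4 ∈ K ∧ (∀ ℓ ∈ K, Even ℓ ∧ 4 ≤ ℓ) ∧
    ∀ c : ℝ, 0 < c → ∀ m : ℕ, ∃ Δ : ℕ, m ≤ Δ ∧ 0 < Δ ∧
      (∃ T : SimpleGraph (Fin Δ), (∀ ℓ ∈ K, ¬ (cycleGraph ℓ).IsContained T) ∧
        1 < c * (T.edgeSet.ncard : ℝ) * (Δ : ℝ) / (Δ : ℝ) ^ 2) ∧
      ∃ (n : ℕ) (G : SimpleGraph (Fin n)), 0 < n ∧ (∀ v, (G.neighborSet v).ncard = Δ) ∧
        ∀ H : SimpleGraph (Fin n), H ≤ G → (∀ ℓ ∈ K, ¬ (cycleGraph ℓ).IsContained H) →
          ∃ v, (H.neighborSet v).ncard ≤ 1 := by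
  refine ⟨K, four_mem_K, fun ℓ hℓ => ⟨hℓ.1, hℓ.2.1⟩, ?_⟩
  intro c hc m
  obtain ⟨k, hk⟩ := exists_nat_gt (2 / c)
  let i := max k m
  have hi : 2 / c < (i : ℝ) := hk.trans_le (by exact_mod_cast le_max_left k m)
  refine ⟨(X i).n, ?_, (X i).pos, ⟨(X i).G, X_free i, ?_⟩, (Y i).n, (Y i).G, (Y i).pos, (Y i).reg, ?_⟩
  · have := X_large i
    have : m ≤ i := le_max_right k m
    omega
  · have h1 := card_edges i
    have h2 : (2 : ℝ) * ((X i).G.edgeSet.ncard : ℝ) = ((X i).n : ℝ) * ((i : ℝ) + 1) := by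
      exact_mod_cast h1
    have hn : (0 : ℝ) < ((X i).n : ℝ) := by exact_mod_cast (X i).pos
    have h3 : c * ((X i).G.edgeSet.ncard : ℝ) * ((X i).n : ℝ) / ((X i).n : ℝ) ^ 2
        = c * ((i : ℝ) + 1) / 2 := by
      have h4 : ((X i).G.edgeSet.ncard : ℝ) = ((X i).n : ℝ) * ((i : ℝ) + 1) / 2 := by linarith
      rw [h4]
      field_simp
    rw [h3]
    rw [div_lt_iff₀ hc] at hi
    nlinarith
  · intro H hH hf
    exact exists_leaf H (Y_acyclic i H hH hf) ⟨0, (Y i).pos⟩

end Q116.Cyc
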