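import Mathlib

set_option autoImplicit false

/-! Regular bipartite graphs of large girth (Biggs' permutation construction). -/

namespace Q116.Cyc

/-- The action of a colour on reduced words of length at most `g`. -/
def act (d g : ℕ) (c : Fin d) (l : List (Fin d)) : List (Fin d) :=
  if l.head? = some c then l.tail else if l.length < g then c :: l else l

theorem act_mem (d g : ℕ) (c : Fin d) (l : List (Fin d))
    (h : l.IsChain (fun a b => a ≠ b) ∧ l.length ≤ g) :
    (act d g c l).IsChain (fun a b => a ≠ b) ∧ (act d g c l).length ≤ g := by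
  unfold act
  split_ifs with h1 h2
  · refine ⟨h.1.tail, ?_⟩
    rw [List.length_tail]
    omega
  · refine ⟨?_, by simpa using h2⟩
    cases l with
    | nil => exact List.isChain_singleton _
    | cons a t =>
      rw [List.isChain_cons_cons]
      refine ⟨?_, h.1⟩
      intro hca
      apply h1
      rw [hca]
      rfl
  · exact h

theorem act_inv (d g : ℕ) (c : Fin d) (l : List (Fin d))
    (h : l.IsChain (fun a b => a ≠ b) ∧ l.length ≤ g) :
    act d g c (act d g c l) = l := by
  by_cases h1 : l.head? = some c
  · cases l with
    | nil => simp at h1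
    | cons a t =>
      have hac : a = c := by simpa using h1
      subst hac
      have e1 : act d g a (a :: t) = t := by
        unfold act
        rw [if_pos h1]
        rfl
      rw [e1]
      have h2 : t.head? ≠ some a := by
        cases t with
        | nil => simp
        | cons b t' =>
          have := (List.isChain_cons_cons.mp h.1).1
          intro hb
          apply this
          have : b = a := by simpa using hb
          exact this.symm
      have h3 : t.length < g := by
        have := h.2
        simp at this
        omega
      unfold act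
      rw [if_neg h2, if_pos h3]
  · by_cases h2 : l.length < g
    · have e1 : act d g c l = c :: l := by
        unfold act
        rw [if_neg h1, if_pos h2]
      rw [e1]
      have h3 : (c :: l).head? = some c := rfl
      unfold act
      rw [if_pos h3]
      rfl
    · have e1 : act d g c l = l := by
        unfold act
        rw [if_neg h1, if_neg h2]
      rw [e1, e1]

open scoped Classical in
/-- Biggs: a finite group with `d` involutions and no short reduced relation. -/
theorem biggs (d g : ℕ) : ∃ (Γ : Type) (_ : Group Γ) (_ : Fintype Γ), ∃ s : Fin d → Γ,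
    (∀ c, s c * s c = 1) ∧ ∀ w : List (Fin d), w ≠ [] → w.length ≤ g →
      w.IsChain (fun a b => a ≠ b) → (w.map s).prod ≠ 1 := by
  let B : Type := {l : List (Fin d) // l.IsChain (fun a b => a ≠ b) ∧ l.length ≤ g}
  have hfin : Finite B := by
    have h1 : Finite {l : List (Fin d) | l.length ≤ g} := (List.finite_length_le (Fin d) g)
    exact Finite.of_injective (fun b : B => (⟨b.1, b.2.2⟩ : {l : List (Fin d) | l.length ≤ g}))
      (fun a b hab => by
        apply Subtype.ext
        exact congrArg (fun z => z.1) hab)
  let s : Fin d → Equiv.Perm B := fun c =>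
    { toFun := fun b => ⟨act d g c b.1, act_mem d g c b.1 b.2⟩
      invFun := fun b => ⟨act d g c b.1, act_mem d g c b.1 b.2⟩
      left_inv := fun b => Subtype.ext (act_inv d g c b.1 b.2)
      right_inv := fun b => Subtype.ext (act_inv d g c b.1 b.2) }
  refine ⟨Equiv.Perm B, inferInstance, Fintype.ofFinite _, s, ?_, ?_⟩
  · intro c
    apply Equiv.ext
    intro b
    apply Subtype.ext
    exact act_inv d g c b.1 b.2
  · intro w hw hlen hch hprod
    have key : ∀ w : List (Fin d), w.length ≤ g → w.IsChain (fun a b => a ≠ b) →
        ((w.map s).prod (⟨[], List.isChain_nil, Nat.zero_le g⟩ : B)).1 = w := by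
      intro w
      induction w with
      | nil => intro _ _; rfl
      | cons c t ih =>
        intro h1 h2
        have h3 : t.length < g := by
          simp at h1
          omega
        have h4 := ih h3.le h2.tail
        rw [List.map_cons, List.prod_cons, Equiv.Perm.mul_apply]
        show act d g c ((t.map s).prod (⟨[], List.isChain_nil, Nat.zero_le g⟩ : B)).1 = _
        rw [h4]
        unfold act
        rw [if_neg, if_pos h3]
        cases t with
        | nil => simp
        | cons b t' =>
          intro hb
          apply (List.isChain_cons_cons.mp h2).1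
          have : b = c := by simpa using hb
          exact this.symm
    have h5 := key w hlen hch
    rw [hprod] at h5
    exact hw h5.symm

theorem trail_word {Γ : Type} [Group Γ] (d : ℕ) (s : Fin d → Γ)
    (hs : ∀ c, s c * s c = 1) (H : SimpleGraph (Γ × Bool))
    (hH : ∀ x y, H.Adj x y ↔ y.2 = !x.2 ∧ ∃ c, y.1 = x.1 * s c)
    {a b : Γ × Bool} (p : H.Walk a b) (hp : p.IsTrail) :
    ∃ l : List (Fin d), l.length = p.length ∧ b.1 = a.1 * (l.map s).prod ∧
      l.IsChain (fun a b => a ≠ b) ∧
      ∀ c, l.head? = some c → s(a, (a.1 * s c, !a.2)) ∈ p.edges := by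
  induction p with
  | nil =>
    refine ⟨[], rfl, by simp, List.isChain_nil, ?_⟩
    intro c hc
    simp at hc
  | @cons a u b h p ih =>
    rw [SimpleGraph.Walk.isTrail_cons] at hp
    obtain ⟨l, hl1, hl2, hl3, hl4⟩ := ih hp.1
    obtain ⟨hb, c, hc⟩ := (hH _ _).1 h
    have hu : u = (a.1 * s c, !a.2) := Prod.ext hc hb
    refine ⟨c :: l, by simp [hl1], ?_, ?_, ?_⟩
    · rw [List.map_cons, List.prod_cons, hl2, hc, mul_assoc]
    · cases l with
      | nil => exact List.isChain_singleton _
      | cons c' t =>
        rw [List.isChain_cons_cons]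
        refine ⟨?_, hl3⟩
        intro hcc
        subst hcc
        have h1 := hl4 c rfl
        apply hp.2
        have h2 : ((u.1 * s c, !u.2) : Γ × Bool) = a := by
          apply Prod.ext
          · show u.1 * s c = a.1
            rw [hc, mul_assoc, hs, mul_one]
          · show (!u.2) = a.2
            rw [hb, Bool.not_not]
        rw [h2] at h1
        rw [Sym2.eq_swap]
        exact h1
    · intro c' hc'
      have : c = c' := by simpa using hc'
      subst this
      rw [SimpleGraph.Walk.edges_cons, ← hu]
      exact List.mem_cons_self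

/-- For all `d` and `g` there is a finite nonempty bipartite `d`-regular graph all of whose
cycles are longer than `g`. -/
theorem exists_regular (d g : ℕ) : ∃ (n : ℕ) (G : SimpleGraph (Fin n)), 0 < n ∧ G.Colorable 2 ∧
    (∀ v, (G.neighborSet v).ncard = d) ∧
      ∀ (v : Fin n) (w : G.Walk v v), w.IsCycle → g < w.length := by
  classical
  obtain ⟨Γ, hG, hF, s, hs, hw⟩ := biggs d (g + 2)
  have hs1 : ∀ c, s c ≠ 1 := by
    intro c h
    apply hw [c] (by simp) (by simp) (List.isChain_singleton _)
    simp [h]
  have hinj : Function.Injective s := by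
    intro c c' h
    by_contra hne
    apply hw [c, c'] (by simp) (by simp)
    · rw [List.isChain_cons_cons]
      exact ⟨hne, List.isChain_singleton _⟩
    · simp only [List.map_cons, List.map_nil, List.prod_cons, List.prod_nil, mul_one]
      rw [← h, hs]
  let H : SimpleGraph (Γ × Bool) :=
    { Adj := fun x y => y.2 = !x.2 ∧ ∃ c, y.1 = x.1 * s c
      symm := ⟨by
        rintro x y ⟨hb, c, hc⟩
        exact ⟨by rw [hb, Bool.not_not], c, by rw [hc, mul_assoc, hs, mul_one]⟩⟩
      loopless := ⟨by
        rintro x ⟨hb, -⟩
        simp at hb⟩ }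
  have hH : ∀ x y, H.Adj x y ↔ y.2 = !x.2 ∧ ∃ c, y.1 = x.1 * s c := fun x y => Iff.rfl
  let e : Γ × Bool ≃ Fin (Fintype.card (Γ × Bool)) := Fintype.equivFin _
  let G : SimpleGraph (Fin (Fintype.card (Γ × Bool))) := H.map e.toEmbedding
  let φ : H ≃g G := SimpleGraph.Iso.map e H
  have hcol : H.Colorable 2 := by
    have : H.Coloring Bool := SimpleGraph.Coloring.mk (fun x => x.2) (by
      intro x y hxy hb
      have := hxy.1
      rw [← hb] at this
      simp at this)
    simpa using this.colorable
  refine ⟨_, G, Fintype.card_pos_iff.mpr ⟨(1, false)⟩, ?_, ?_, ?_⟩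
  · exact hcol.of_hom φ.symm.toHom
  · intro v
    obtain ⟨x, rfl⟩ := φ.surjective v
    have h1 : G.neighborSet (φ x) = φ '' (H.neighborSet x) := by
      ext y
      constructor
      · intro hy
        obtain ⟨z, rfl⟩ := φ.surjective y
        refine ⟨z, ?_, rfl⟩
        exact φ.map_adj_iff.mp hy
      · rintro ⟨z, hz, rfl⟩
        exact φ.map_adj_iff.mpr hz
    rw [h1, Set.ncard_image_of_injective _ φ.injective]
    have h2 : H.neighborSet x = Set.range (fun c : Fin d => ((x.1 * s c, !x.2) : Γ × Bool)) := by
      ext y
      constructor
      · rintro ⟨hb, c, hc⟩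
        exact ⟨c, (Prod.ext hc hb).symm⟩
      · rintro ⟨c, rfl⟩
        exact ⟨rfl, c, rfl⟩
    rw [h2, ← Set.image_univ, Set.ncard_image_of_injective]
    · simp
    · intro c c' h
      have := congrArg Prod.fst h
      exact hinj (mul_left_cancel this)
  · intro v w hcyc
    by_contra hlen
    push Not at hlen
    have hc2 : (w.map φ.symm.toHom).IsCycle :=
      (SimpleGraph.Walk.isCycle_map_iff_of_injective φ.symm.injective).mpr hcyc
    obtain ⟨l, hl1, hl2, hl3, -⟩ := trail_word d s hs H hH _ hc2.isTrail
    rw [SimpleGraph.Walk.length_map] at hl1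
    have hne : l ≠ [] := by
      intro h
      rw [h] at hl1
      have := hcyc.three_le_length
      simp at hl1
      omega
    apply hw l hne (by omega) hl3
    have : (φ.symm.toHom v).1 * 1 = (φ.symm.toHom v).1 * (l.map s).prod := by
      rw [mul_one]; exact hl2
    exact (mul_left_cancel this).symm

end Q116.Cyc
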